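import Mathlib

/-! # TF/KAP: preparations (helper94) -/

set_option autoImplicit false

namespace Pool.TF48.Helper94

open Polynomial

lemma prod_monomial {B : Type} [Ring B] : ∀ {n : ℕ} (e : Fin n → ℕ) (c : Fin n → B),
    (List.ofFn (fun i => monomial (e i) (c i))).prod = monomial (∑ i, e i) (List.ofFn c).prod := by
  intro n
  induction n with
  | zero => intro e c; simp [monomial_zero_left]
  | succ n ih =>
    intro e c
    rw [List.ofFn_succ, List.ofFn_succ, List.prod_cons, List.prod_cons, Fin.sum_univ_succ,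
      ih (fun i => e i.succ) (fun i => c i.succ), monomial_mul_monomial]

variable {R A : Type} [NonUnitalRing R] [Ring A] (ι : R →ₙ+* A)

lemma ident {d : ℕ} {a : Equiv.Perm (Fin (d + 1)) → ℤ}
    (ha : ∀ x : Fin (d + 1) → R, ∑ σ, a σ • (List.ofFn (fun i => ι (x (σ i)))).prod = 0)
    (x : Fin (d + 1) → A[X]) (hx : ∀ i n, ∃ r, ι r = (x i).coeff n) :
    ∑ σ, a σ • (List.ofFn (fun i => x (σ i))).prod = 0 := by
  classical
  choose c hc using hx
  let F : MultilinearMap ℤ (fun _ : Fin (d + 1) => A[X]) A[X] :=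
    ∑ σ, a σ • (MultilinearMap.mkPiAlgebraFin ℤ (d + 1) A[X]).domDomCongr σ
  have hF : ∀ y, F y = ∑ σ, a σ • (List.ofFn (fun i => y (σ i))).prod := by
    intro y
    simp only [F, MultilinearMap.sum_apply, MultilinearMap.smul_apply,
      MultilinearMap.domDomCongr_apply, MultilinearMap.mkPiAlgebraFin_apply]
  rw [← hF]
  have hexp : x = fun i => ∑ n ∈ (x i).support, monomial n ((x i).coeff n) := by
    funext i
    exact (x i).as_sum_support
  rw [hexp, MultilinearMap.map_sum_finset]
  refine Finset.sum_eq_zero fun r _ => ?_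
  rw [hF]
  have h1 : ∀ σ : Equiv.Perm (Fin (d + 1)),
      (List.ofFn (fun i => monomial (r (σ i)) ((x (σ i)).coeff (r (σ i))))).prod =
        monomial (∑ i, r i) (List.ofFn (fun i => ι (c (σ i) (r (σ i))))).prod := by
    intro σ
    rw [prod_monomial (fun i => r (σ i)) (fun i => (x (σ i)).coeff (r (σ i))),
      Equiv.sum_comp σ r]
    simp only [hc]
  have h2 : ∑ σ, a σ • (List.ofFn (fun i => monomial (r (σ i)) ((x (σ i)).coeff (r (σ i))))).prod =
      monomial (∑ i, r i) (∑ σ, a σ • (List.ofFn (fun i => ι (c (σ i) (r (σ i))))).prod) := by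
    rw [map_sum]
    refine Finset.sum_congr rfl fun σ _ => ?_
    rw [h1, map_zsmul]
  rw [h2, ha (fun i => c i (r i)), map_zero]

/-- the polynomials with coefficients in `R` -/
noncomputable def polyR : AddSubgroup A[X] where
  carrier := {p | ∀ n, ∃ r, ι r = p.coeff n}
  add_mem' := by
    intro p q hp hq n
    obtain ⟨r, hr⟩ := hp n
    obtain ⟨s, hs⟩ := hq n
    exact ⟨r + s, by rw [map_add, hr, hs, coeff_add]⟩
  zero_mem' := fun n => ⟨0, by rw [map_zero, coeff_zero]⟩
  neg_mem' := by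
    intro p hp n
    obtain ⟨r, hr⟩ := hp n
    exact ⟨-r, by rw [map_neg, hr, coeff_neg]⟩

variable {ι}

lemma mem_polyR {p : A[X]} : p ∈ polyR ι ↔ ∀ n, ∃ r, ι r = p.coeff n := Iff.rfl

lemma polyR_mul (hid : ∀ (a : A) (r : R), (∃ s, ι s = a * ι r) ∧ ∃ s, ι s = ι r * a)
    {p : A[X]} (hp : p ∈ polyR ι) (q : A[X]) : p * q ∈ polyR ι ∧ q * p ∈ polyR ι := by
  constructor
  · intro n
    have h : (p * q).coeff n ∈ (ι : R →+ A).range := by
      rw [coeff_mul]
      refine sum_mem fun x _ => ?_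
      obtain ⟨r, hr⟩ := hp x.1
      obtain ⟨s, hs⟩ := (hid (q.coeff x.2) r).2
      exact ⟨s, by rw [← hr]; exact hs⟩
    exact h
  · intro n
    have h : (q * p).coeff n ∈ (ι : R →+ A).range := by
      rw [coeff_mul]
      refine sum_mem fun x _ => ?_
      obtain ⟨r, hr⟩ := hp x.2
      obtain ⟨s, hs⟩ := (hid (q.coeff x.1) r).1
      exact ⟨s, by rw [← hr]; exact hs⟩
    exact h

/-- if `1 - r t` has a left inverse then `r` is nilpotent -/
lemma nil_of_left_inv {B : Type} [Ring B] (r : B) (z : B[X]) (hz : z * (1 - C r * X) = 1) :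
    ∃ n : ℕ, r ^ (n + 1) = 0 := by
  have h0 : ∀ n, z.coeff n = r ^ n := by
    intro n
    induction n with
    | zero =>
      have := congrArg (fun p => coeff p 0) hz
      simpa [mul_sub, ← mul_assoc] using this
    | succ n ih =>
      have := congrArg (fun p => coeff p (n + 1)) hz
      simp only [mul_sub, mul_one, ← mul_assoc, coeff_sub, coeff_mul_X, coeff_mul_C, coeff_one,
        Nat.succ_ne_zero, if_false] at this
      have h1 : z.coeff (n + 1) = z.coeff n * r := by
        rw [sub_eq_zero] at this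
        exact this
      rw [h1, ih, pow_succ]
  refine ⟨z.natDegree, ?_⟩
  rw [← h0]
  exact coeff_eq_zero_of_natDegree_lt (Nat.lt_succ_self _)

variable (ι)

/-- the elements of `R` in the Jacobson radical of the polynomial ring -/
noncomputable def rad : NonUnitalSubring R where
  carrier := {r | (C (ι r) : A[X]) ∈ Ring.jacobson A[X]}
  add_mem' := by
    intro r s hr hs
    change C (ι (r + s)) ∈ Ring.jacobson A[X]
    rw [map_add, C_add]
    exact add_mem hr hs
  zero_mem' := by
    change C (ι 0) ∈ Ring.jacobson A[X]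
    rw [map_zero, C_0]
    exact zero_mem _
  neg_mem' := by
    intro r hr
    change C (ι (-r)) ∈ Ring.jacobson A[X]
    rw [map_neg, C_neg]
    exact neg_mem hr
  mul_mem' := by
    intro r s _ hs
    change C (ι (r * s)) ∈ Ring.jacobson A[X]
    rw [map_mul, C_mul]
    exact Ideal.mul_mem_left _ _ hs

variable {ι}

lemma mem_rad {r : R} : r ∈ rad ι ↔ (C (ι r) : A[X]) ∈ Ring.jacobson A[X] := Iff.rfl

lemma rad_left (s : R) {r : R} (h : r ∈ rad ι) : s * r ∈ rad ι := by
  rw [mem_rad, map_mul, C_mul]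
  exact Ideal.mul_mem_left _ _ h

lemma rad_right {r : R} (h : r ∈ rad ι) (s : R) : r * s ∈ rad ι := by
  rw [mem_rad, map_mul, C_mul]
  exact Ideal.mul_mem_right _ _ h

lemma rad_nil {r : R} (h : r ∈ rad ι) : ∃ n : ℕ, (ι r) ^ (n + 1) = 0 := by
  rw [mem_rad, ← Ideal.jacobson_bot] at h
  rw [Ideal.mem_jacobson_iff] at h
  obtain ⟨z, hz⟩ := h (-X)
  rw [Ideal.mem_bot, sub_eq_zero] at hz
  refine nil_of_left_inv (ι r) z ?_
  refine Eq.trans ?_ hz
  rw [mul_sub, mul_one, ← X_mul_C, mul_neg, neg_mul, mul_assoc]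
  abel

/-- outside of the radical there is a simple module -/
lemma exists_module {r : R} (h : r ∉ rad ι) : ∃ m : Ideal A[X], m.IsMaximal ∧
    (C (ι r) : A[X]) ∉ m := by
  rw [mem_rad, Ring.jacobson_eq_sInf_isMaximal, Submodule.mem_sInf] at h
  push Not at h
  obtain ⟨m, hm, hr⟩ := h
  exact ⟨m, hm, hr⟩

end Pool.TF48.Helper94
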