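import Pool.Agent.Helper48.TF.Defs
import Pool.Agent.Helper94.TF.KAPa

/-! # TF/KAP: semiprime rings with a multilinear identity embed in matrices (helper94) -/

set_option autoImplicit false

namespace Pool.TF48.Helper94

open Polynomial Pool.TF48

section lmap

variable {N R : Type} [NonUnitalRing N] [NonUnitalRing R] (φ : N →ₙ+* R)

/-- the extension of a homomorphism to the unitizations -/
noncomputable def lmap : Unitization ℤ N →+* Unitization ℤ R where
  toFun z := Unitization.inl z.fst + (φ z.snd : Unitization ℤ R)
  map_one' := by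
    ext <;> simp
  map_mul' x y := by
    apply Unitization.ext
    · simp only [Unitization.fst_mul, Unitization.fst_add, Unitization.fst_inl,
        Unitization.fst_inr, add_zero]
    · simp only [Unitization.snd_mul, Unitization.snd_add, Unitization.snd_inl,
        Unitization.snd_inr, Unitization.fst_add, Unitization.fst_inl,
        Unitization.fst_inr, add_zero, zero_add, map_add, map_mul, map_zsmul]
  map_zero' := by
    ext <;> simp
  map_add' x y := by
    ext
    · simp
    · simp

lemma lmap_fst (z : Unitization ℤ N) : (lmap φ z).fst = z.fst := by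
  change (Unitization.inl z.fst + (φ z.snd : Unitization ℤ R)).fst = _
  simp

lemma lmap_snd (z : Unitization ℤ N) : (lmap φ z).snd = φ z.snd := by
  change (Unitization.inl z.fst + (φ z.snd : Unitization ℤ R)).snd = _
  simp

lemma lmap_inr (n : N) : lmap φ (n : Unitization ℤ N) = (φ n : Unitization ℤ R) := by
  ext
  · rw [lmap_fst]; simp
  · rw [lmap_snd]; simp

lemma lmap_injective (h : Function.Injective φ) : Function.Injective (lmap φ) := by
  intro x y hxy
  ext
  · rw [← lmap_fst φ x, hxy, lmap_fst]
  · apply h
    rw [← lmap_snd, hxy, lmap_snd]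

lemma lmap_prod (l : List (Unitization ℤ N)) : lmap φ l.prod = (l.map (lmap φ)).prod := by
  induction l with
  | nil => exact map_one (lmap φ)
  | cons x l ih =>
    rw [List.map_cons, List.prod_cons, List.prod_cons, ← ih]
    exact map_mul (lmap φ) _ _

lemma MI_sub (h : Function.Injective φ) {d : ℕ} (hR : MI d R) : MI d N := by
  obtain ⟨a, ha1, ha⟩ := hR
  refine ⟨a, ha1, fun x => lmap_injective φ h ?_⟩
  rw [map_zero, map_sum, ← ha (fun i => φ (x i))]
  refine Finset.sum_congr rfl fun σ _ => ?_
  rw [map_zsmul, lmap_prod, List.map_ofFn]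
  congr 2
  congr 1
  funext i
  exact lmap_inr φ _

end lmap

variable (R : Type) [NonUnitalRing R]

/-- the unitization, as a ring -/
def UA : Type := Unitization ℤ R

noncomputable instance : Ring (UA R) := inferInstanceAs (Ring (Unitization ℤ R))

/-- the embedding of `R` in its unitization -/
noncomputable def emb : R →ₙ+* UA R where
  toFun r := (r : Unitization ℤ R)
  map_mul' := fun r s => Unitization.inr_mul ℤ r s
  map_zero' := Unitization.inr_zero ℤ
  map_add' := fun r s => Unitization.inr_add ℤ r s

lemma emb_ideal (a : UA R) (r : R) :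
    (∃ s, emb R s = a * emb R r) ∧ ∃ s, emb R s = emb R r * a := by
  constructor
  · let b : Unitization ℤ R := a
    refine ⟨(b * (r : Unitization ℤ R)).snd, ?_⟩
    change (((b * (r : Unitization ℤ R)).snd : R) : Unitization ℤ R) = b * (r : Unitization ℤ R)
    apply Unitization.ext
    · rw [Unitization.fst_mul, Unitization.fst_inr, Unitization.fst_inr, mul_zero]
    · rw [Unitization.snd_inr]
  · let b : Unitization ℤ R := a
    refine ⟨((r : Unitization ℤ R) * b).snd, ?_⟩
    change ((((r : Unitization ℤ R) * b).snd : R) : Unitization ℤ R) = (r : Unitization ℤ R) * b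
    apply Unitization.ext
    · rw [Unitization.fst_mul, Unitization.fst_inr, Unitization.fst_inr, zero_mul]
    · rw [Unitization.snd_inr]

lemma semiprime_rad (hs : Semiprime R) : Semiprime (rad (emb R)) := by
  intro a ha
  apply Subtype.ext
  refine hs a.1 fun b => ?_
  refine hs (a.1 * b * a.1) fun c => ?_
  have h1 : b * a.1 * c * a.1 * b ∈ rad (emb R) := by
    have h2 : b * a.1 * c * a.1 * b = b * (a.1 * (c * a.1 * b)) := by
      simp only [mul_assoc]
    rw [h2]
    exact rad_left b (rad_right a.2 _)
  have h3 := congrArg Subtype.val (ha ⟨_, h1⟩)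
  have h4 : a.1 * (b * a.1 * c * a.1 * b) * a.1 = 0 := h3
  rw [← h4]
  simp only [mul_assoc]

theorem kap (h1 : S_LEV) (h2 : S_PRIM) : S_KAP := by
  classical
  intro d R _ hMI hs
  have hrad : ∀ r : R, r ∈ rad (emb R) → r = 0 := by
    intro r hr
    have h3 := h1 d (rad (emb R)) (MI_sub (NonUnitalSubringClass.subtype (rad (emb R)))
      Subtype.val_injective hMI) (fun x => by
        obtain ⟨n, hn⟩ := rad_nil x.2
        refine ⟨n, lmap_injective (NonUnitalSubringClass.subtype (rad (emb R)))
          Subtype.val_injective ?_⟩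
        rw [map_pow, lmap_inr, map_zero]
        exact hn) (semiprime_rad R hs) ⟨r, hr⟩
    exact congrArg Subtype.val h3
  obtain ⟨a, ha1, ha⟩ := hMI
  have key : ∀ r : {r : R // r ≠ 0}, ∃ (F : Type) (_ : Field F)
      (g : (UA R)[X] →ₙ+* Matrix (Fin (d + 1)) (Fin (d + 1)) F),
      g (C (emb R r.1)) ≠ 0 := by
    intro r
    obtain ⟨m, hm, hr⟩ := exists_module (ι := emb R) (fun h => r.2 (hrad r.1 h))
    have : IsSimpleModule (UA R)[X] ((UA R)[X] ⧸ m) :=
      isSimpleModule_iff_isCoatom.2 hm.out
    have hne : (C (emb R r.1) : (UA R)[X]) •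
        (Submodule.Quotient.mk 1 : (UA R)[X] ⧸ m) ≠ 0 := by
      rw [← Submodule.Quotient.mk_smul, smul_eq_mul, mul_one]
      intro h
      exact hr ((Submodule.Quotient.mk_eq_zero m).1 h)
    obtain ⟨F, hF, g, hg⟩ := h2 (UA R)[X] ((UA R)[X] ⧸ m) (polyR (emb R))
      (fun x hx b => polyR_mul (emb_ideal R) hx b)
      ⟨C (emb R r.1), fun n => by
        rw [coeff_C]
        split_ifs
        · exact ⟨r.1, rfl⟩
        · exact ⟨0, map_zero _⟩, Submodule.Quotient.mk 1, hne⟩ d a ha1
      (fun x hx => ident (emb R) ha x hx)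
    exact ⟨F, hF, g, fun h => hne (hg _ h _)⟩
  choose F hF g hg using key
  let i : R →ₙ+* Matrix (Fin (d + 1)) (Fin (d + 1)) (∀ r, F r) :=
    { toFun := fun s => Matrix.of fun x y r => g r (C (emb R s)) x y
      map_mul' := by
        intro s t
        ext x y r
        simp only [Matrix.of_apply, Matrix.mul_apply, Finset.sum_apply, Pi.mul_apply, map_mul, C_mul]
      map_zero' := by
        ext x y r
        simp
      map_add' := by
        intro s t
        ext x y r
        simp }
  refine ⟨d + 1, ∀ r, F r, inferInstance, i, ?_⟩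
  rw [injective_iff_map_eq_zero]
  intro s hs0
  by_contra hne
  refine hg ⟨s, hne⟩ ?_
  ext x y
  have := congrFun (congrFun (congrFun hs0 x) y) ⟨s, hne⟩
  exact this

end Pool.TF48.Helper94
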